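import Pool.Agent.H519_UE.Affine
import Pool.Agent.H519_UE.Sym

/-!
# Replica symmetry below the threshold for random uniquely extendable systems

All definitions used by the statement are in `Pool.Agent.H519_UE.Model`.
-/

open scoped BigOperators

open Pool.Agent.H519_UE in
/-- Let `3 ≤ k`, let `Ω` be a finite spin set with at least two elements (any size, in particular
any size that is not a product of distinct primes), and let `π` be a probability distribution on
the uniquely extendable `k`-ary functions on `Ω` such that one of the following holds: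
(i) `4 ≤ k` and the support of `π` (with positions permuted freely) is reducible,
(ii) every function in `F_2(supp π)` is symmetric,
(iii) `supp π` consists of equations over one abelian group structure on `Ω` whose coefficients are
pairwise commuting automorphisms.
Then for every `ε > 0`, uniformly over `m < (d_k / k - ε) n`, with probability tending to one as
`n → ∞`, the instance `H_n(π, k, m)` is satisfiable and for a uniformly random solution `x` and
independent uniformly random variables `u`, `v` we have `P[x_u = σ, x_v = s] = 1 / q ^ 2 + o(1)`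
for all `σ, s`. -/
theorem Pool.Agent.Results.MP_82d614_pr.ReplicaSymmetry.result
    (k : ℕ) (hk : 3 ≤ k) (Ω : Type) [Fintype Ω] [DecidableEq Ω] (hΩ : 2 ≤ Fintype.card Ω)
    (π : Con k Ω → ℝ) (hπ0 : ∀ ψ, 0 ≤ π ψ) (hπ1 : ∑ ψ, π ψ = 1)
    (hUE : ∀ ψ, π ψ ≠ 0 → IsUE ψ)
    (hyp : (4 ≤ k ∧ Reducible (permClosure {ψ | π ψ ≠ 0})) ∨
      (∀ g ∈ treeFn {ψ | π ψ ≠ 0} 2, SymmFn g) ∨ AffineFam {ψ | π ψ ≠ 0})
    (ε δ η : ℝ) (hε : 0 < ε) (hδ : 0 < δ) (hη : 0 < η) :
    ∃ N : ℕ, ∀ n, N ≤ n → ∀ m : ℕ, (m : ℝ) < (dk k / k - ε) * n →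
      1 - η ≤ Pr π n m (fun H => (Sol H).Nonempty ∧ ∀ σ s : Ω,
        |pairProb H σ s - 1 / (Fintype.card Ω : ℝ) ^ 2| ≤ δ) := by
  classical
  haveI : Nonempty Ω := Fintype.card_pos_iff.mp (by omega)
  have hne : {ψ | π ψ ≠ 0}.Nonempty := by
    by_contra hno
    rw [Set.not_nonempty_iff_eq_empty] at hno
    have h0 : ∀ ψ, π ψ = 0 := by
      intro ψ
      by_contra h
      have : ψ ∈ {ψ | π ψ ≠ 0} := h
      rw [hno] at this
      exact this
    rw [Finset.sum_eq_zero fun ψ _ => h0 ψ] at hπ1
    exact zero_ne_one hπ1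
  have haff : AffineFam {ψ | π ψ ≠ 0} := by
    rcases hyp with ⟨h4, hred⟩ | hsym | haff
    · exact affine_of_reducible h4 hne (fun ψ h => hUE ψ h) hred
    · exact affine_of_symm hk hne (fun ψ h => hUE ψ h) hsym
    · exact haff
  obtain ⟨l, rfl⟩ : ∃ l, k = l + 2 := ⟨k - 2, by omega⟩
  exact affine_main (by omega) hπ0 hπ1 haff hε hδ hη
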